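import Pool.Agent.helper64.QF.Spec

/-!
# Project pq: module `POL`
-/

set_option autoImplicit false

namespace Pool.Agent.helper64.QF

open Metric MeasureTheory Set Filter Topology
open Pool.Agent.helper37.PR

theorem POL_V2 {n : ℕ} (p q : MvPolynomial (Fin n) ℂ) (hp : V1 p) (hq : V1 q) : V2 (p * q) := by
  unfold V1 at hp hq
  refine ⟨?_, ?_⟩
  · unfold V1
    rw [map_mul, hp, zero_mul]
  · intro i
    rw [MvPolynomial.pderiv_mul, map_add, map_mul, map_mul, hp, hq]
    ring

theorem POL_quad {n : ℕ} (p q : MvPolynomial (Fin n) ℂ) (hp : V1 p) (hq : V1 q) (u : E n) :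
    quad (p * q) u = lin p u * lin q u := by
  unfold V1 at hp hq
  unfold quad lin
  have h1 : ∀ i j : Fin n, MvPolynomial.eval (fun _ => (0 : ℂ)) (MvPolynomial.pderiv i (MvPolynomial.pderiv j (p * q))) =
      MvPolynomial.eval (fun _ => (0 : ℂ)) (MvPolynomial.pderiv j p) * MvPolynomial.eval (fun _ => (0 : ℂ)) (MvPolynomial.pderiv i q) +
      MvPolynomial.eval (fun _ => (0 : ℂ)) (MvPolynomial.pderiv i p) * MvPolynomial.eval (fun _ => (0 : ℂ)) (MvPolynomial.pderiv j q) := by
    intro i j
    rw [MvPolynomial.pderiv_mul, map_add, MvPolynomial.pderiv_mul, MvPolynomial.pderiv_mul]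
    simp only [map_add, map_mul, hp, hq]
    ring
  have h2 : ∀ i j : Fin n, u i * u j * MvPolynomial.eval (fun _ => (0 : ℂ)) (MvPolynomial.pderiv i (MvPolynomial.pderiv j (p * q))) =
      (u i * MvPolynomial.eval (fun _ => (0 : ℂ)) (MvPolynomial.pderiv i q)) * (u j * MvPolynomial.eval (fun _ => (0 : ℂ)) (MvPolynomial.pderiv j p)) +
      (u i * MvPolynomial.eval (fun _ => (0 : ℂ)) (MvPolynomial.pderiv i p)) * (u j * MvPolynomial.eval (fun _ => (0 : ℂ)) (MvPolynomial.pderiv j q)) := by
    intro i j
    rw [h1]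
    ring
  simp only [h2, Finset.sum_add_distrib, ← Finset.mul_sum, ← Finset.sum_mul]
  ring

theorem POL_lin_X {n : ℕ} (i : Fin n) (u : E n) : lin (MvPolynomial.X i) u = u i := by
  unfold lin
  rw [Finset.sum_eq_single i]
  · rw [MvPolynomial.pderiv_X_self, map_one, mul_one]
  · intro j _ hj
    rw [MvPolynomial.pderiv_X_of_ne (Ne.symm hj), map_zero, mul_zero]
  · intro h
    exact absurd (Finset.mem_univ i) h

theorem POL_quad_X {n : ℕ} (i : Fin n) (u : E n) : quad (MvPolynomial.X i) u = 0 := by
  unfold quad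
  have h1 : ∀ a b : Fin n, MvPolynomial.pderiv a (MvPolynomial.pderiv b (MvPolynomial.X i : MvPolynomial (Fin n) ℂ)) = 0 := by
    intro a b
    by_cases hb : b = i
    · subst hb
      rw [MvPolynomial.pderiv_X_self, MvPolynomial.pderiv_one]
    · rw [MvPolynomial.pderiv_X_of_ne (Ne.symm hb), map_zero]
  simp only [h1, map_zero, mul_zero, Finset.sum_const_zero]

theorem POL : POL_stmt := by
  intro n
  refine ⟨?_, ?_, ?_, ?_, ?_, ?_, ?_⟩
  · intro p q hp hq
    exact ⟨POL_V2 p q hp hq, fun u => POL_quad p q hp hq u⟩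
  · intro p hp u
    unfold lin
    refine Finset.sum_eq_zero ?_
    intro i _
    rw [hp.2 i, mul_zero]
  · intro c p q u
    refine ⟨?_, ?_, ?_, ?_, ?_, ?_, ?_⟩
    · unfold ev
      rw [map_add]
    · unfold ev
      rw [map_mul]
    · unfold ev
      rw [map_mul, MvPolynomial.eval_C]
    · unfold lin
      simp only [map_add, mul_add, Finset.sum_add_distrib]
    · unfold lin
      rw [Finset.mul_sum]
      refine Finset.sum_congr rfl ?_
      intro i _
      rw [MvPolynomial.pderiv_C_mul, map_mul, MvPolynomial.eval_C]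
      ring
    · unfold quad
      simp only [map_add, mul_add, Finset.sum_add_distrib]
    · unfold quad
      have h1 : ∀ i j : Fin n, u i * u j * MvPolynomial.eval (fun _ => (0 : ℂ)) (MvPolynomial.pderiv i (MvPolynomial.pderiv j (MvPolynomial.C c * p))) =
          c * (u i * u j * MvPolynomial.eval (fun _ => (0 : ℂ)) (MvPolynomial.pderiv i (MvPolynomial.pderiv j p))) := by
        intro i j
        rw [MvPolynomial.pderiv_C_mul, MvPolynomial.pderiv_C_mul, map_mul, MvPolynomial.eval_C]
        ring
      simp only [h1, ← Finset.mul_sum]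
      ring
  · intro c p q
    refine ⟨?_, ?_, ?_, ?_⟩
    · intro hp hq
      unfold V1 at hp hq ⊢
      rw [map_add, hp, hq, add_zero]
    · intro hp hq
      refine ⟨?_, ?_⟩
      · have h1 := hp.1
        have h2 := hq.1
        unfold V1 at h1 h2 ⊢
        rw [map_add, h1, h2, add_zero]
      · intro i
        rw [map_add, map_add, hp.2 i, hq.2 i, add_zero]
    · intro hp
      unfold V1 at hp ⊢
      rw [map_mul, hp, mul_zero]
    · intro hp
      refine ⟨?_, ?_⟩
      · have h1 := hp.1
        unfold V1 at h1 ⊢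
        rw [map_mul, h1, mul_zero]
      · intro i
        rw [MvPolynomial.pderiv_C_mul, map_mul, hp.2 i, mul_zero]
  · intro p c u
    refine ⟨?_, ?_⟩
    · unfold quad
      have h1 : ∀ i j : Fin n, (c • u) i * (c • u) j * MvPolynomial.eval (fun _ => (0 : ℂ)) (MvPolynomial.pderiv i (MvPolynomial.pderiv j p)) =
          c ^ 2 * (u i * u j * MvPolynomial.eval (fun _ => (0 : ℂ)) (MvPolynomial.pderiv i (MvPolynomial.pderiv j p))) := by
        intro i j
        simp only [PiLp.smul_apply, smul_eq_mul]
        ring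
      simp only [h1, ← Finset.mul_sum]
      ring
    · unfold lin
      rw [Finset.mul_sum]
      refine Finset.sum_congr rfl ?_
      intro i _
      simp only [PiLp.smul_apply, smul_eq_mul]
      ring
  · intro i
    refine ⟨?_, ?_⟩
    · unfold V1
      rw [MvPolynomial.eval_X]
    · intro u
      refine ⟨?_, POL_lin_X i u, POL_quad_X i u⟩
      unfold ev
      rw [MvPolynomial.eval_X]
  · intro p
    unfold ev
    refine (MvPolynomial.continuous_eval p).comp ?_
    fun_prop

end Pool.Agent.helper64.QF
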